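import Pool.Agent.Lib.MP_75b31c_lc.N40.Iface

set_option autoImplicit false

/-!
# Module FUN: one string functional for a reduction (Part B, 1.3)
-/

namespace Pool.Agent.Lib.MP_75b31c_lc.N40.H78

open MeasureTheory Filter
open Pool.Agent.Lib.MP_75b31c_lc.H40 (chi coin coinPi shift pre pre_length pre_take)

/-- The functional obtained from a table `E` of depth `m` and a list `ψ` of functionals. -/
def glue (m : ℕ) (E : List Bool → ℕ) (ψ : ℕ → List Bool → List Bool) (ρ : List Bool) :
    List Bool := cond (decide (m ≤ ρ.length)) (ψ (E ρ) ρ) []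

theorem take_eq_of_prefix {ρ ρ' : List Bool} (h : ρ <+: ρ') {m : ℕ} (hm : m ≤ ρ.length) :
    ρ'.take m = ρ.take m := by
  obtain ⟨r, rfl⟩ := h
  exact List.take_append_of_le_length hm

theorem glue_isFn {m : ℕ} {E : List Bool → ℕ} {ψ : ℕ → List Bool → List Bool}
    (hE : Computable E) (hEm : ∀ ρ, E ρ = E (ρ.take m)) (hψ : Computable₂ ψ)
    (hf : ∀ c, IsFn (ψ c)) : IsFn (glue m E ψ) where
  mono ρ ρ' h := by
    unfold glue
    by_cases hm : m ≤ ρ.length
    · have hm' : m ≤ ρ'.length := hm.trans h.length_le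
      have hE' : E ρ' = E ρ := by rw [hEm ρ', hEm ρ, take_eq_of_prefix h hm]
      simp only [hm, hm', decide_true, cond_true, hE']
      exact (hf _).mono _ _ h
    · simp [hm]
  comp := by
    unfold glue
    refine Computable.cond ?_ ?_ (Computable.const [])
    · have h1 : PrimrecPred fun ρ : List Bool => m ≤ ρ.length :=
        Primrec.nat_le.comp (Primrec.const m) Primrec.list_length
      exact h1.decide.to_comp
    · exact hψ.comp hE Computable.id

theorem glue_cmp {m : ℕ} {E : List Bool → ℕ} {ψ : ℕ → List Bool → List Bool}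
    (hEm : ∀ ρ, E ρ = E (ρ.take m)) (hf : ∀ c, IsFn (ψ c)) {z y : ℕ → Bool} {c : ℕ}
    (hc : E (pre z m) = c) (h : Cmp (ψ c) z y) : Cmp (glue m E ψ) z y := by
  have key : ∀ t, m ≤ t → glue m E ψ (pre z t) = ψ c (pre z t) := by
    intro t ht
    have h1 : E (pre z t) = c := by rw [hEm, pre_take z ht, hc]
    unfold glue
    simp [pre_length, ht, h1]
  refine ⟨fun t => ?_, fun n => ?_⟩
  · by_cases ht : m ≤ t
    · rw [key t ht]
      exact h.1 t
    · have h0 : glue m E ψ (pre z t) = [] := by
        unfold glue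
        simp [pre_length, ht]
      rw [h0]
      simp [pre]
  · obtain ⟨t, ht⟩ := h.2 n
    refine ⟨max t m, ?_⟩
    rw [key _ (le_max_right _ _)]
    refine ht.trans ?_
    have hp : pre z t <+: pre z (max t m) := by
      rw [← pre_take z (le_max_left t m)]
      exact List.take_prefix _ _
    exact ((hf c).mono _ _ hp).length_le

theorem fun_mod : FUN_S := by
  intro hTAB hENU hMEAS X _ _ μ _ h hh K hK hinj ε hε hKε
  obtain ⟨ψ, hψ, hψf, hψc⟩ := hENU
  obtain ⟨hM1, -⟩ := hMEAS
  have bound : ∀ (A B : Set X), (B ⊆ Kᶜ ∪ A) → μ.real A ≤ ε → μ.real B ≤ 2 * ε := by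
    intro A B hAB hA
    calc μ.real B ≤ μ.real (Kᶜ ∪ A) := measureReal_mono hAB
      _ ≤ μ.real Kᶜ + μ.real A := measureReal_union_le _ _
      _ ≤ 2 * ε := by linarith
  refine ⟨fun s hs hred => ?_, fun bit hbit => ?_⟩
  · classical
    have hex : ∀ x, ∃ c, Cmp (ψ c) (h x) (h (s x)) := fun x => hψc _ _ (hred x)
    have hmeas : ∀ c, MeasurableSet {x | Cmp (ψ c) (h x) (h (s x))} := by
      intro c
      have hm : Measurable fun x => (h x, h (s x)) := hh.prodMk (hh.comp hs)
      exact hm (hM1 (ψ c))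
    obtain ⟨m, E, hE, hEm, hEμ⟩ := hTAB X μ h hh K hK hinj (fun x => Nat.find (hex x))
      (measurable_find hex hmeas) ε hε
    refine ⟨glue m E ψ, glue_isFn hE hEm hψ hψf, bound _ _ ?_ hEμ⟩
    intro x hx
    by_contra hcon
    rw [Set.mem_union, not_or, Set.mem_compl_iff, not_not] at hcon
    apply hx
    have hEx : E (pre (h x) m) = Nat.find (hex x) := by
      by_contra hne
      exact hcon.2 ⟨hcon.1, hne⟩
    exact glue_cmp hEm hψf hEx (Nat.find_spec (hex x))
  · obtain ⟨m, E, hE, hEm, hEμ⟩ := hTAB X μ h hh K hK hinj (fun x => (bit x).toNat)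
      ((measurable_of_countable Bool.toNat).comp hbit) ε hε
    refine ⟨m, fun ρ => decide (E ρ = 1), ?_, bound _ _ ?_ hEμ⟩
    · have h1 : PrimrecPred fun n : ℕ => n = 1 :=
        Primrec.eq.comp Primrec.id (Primrec.const 1)
      exact h1.decide.to_comp.comp hE
    · intro x hx
      by_contra hcon
      rw [Set.mem_union, not_or, Set.mem_compl_iff, not_not] at hcon
      apply hx
      have hEx : E (pre (h x) m) = (bit x).toNat := by
        by_contra hne
        exact hcon.2 ⟨hcon.1, hne⟩
      show decide (E (pre (h x) m) = 1) = bit x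
      rw [hEx]
      cases bit x <;> rfl

end Pool.Agent.Lib.MP_75b31c_lc.N40.H78
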